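import Mathlib
import Pool.Agent.Work.MP_71a505_up.Defs

namespace Pool.Agent.Work.MP_71a505_up

namespace SZ1

variable {a b c r s t W e h α β γ δ : ℝ}

theorem rq (R : RD a b c r s t W e h α β γ δ) :
    (a * b + 1) * (2 + 2 * e ^ 2 - 4 * e - 3 * (h * e)) = h * (h + 3) ^ 2 * (e ^ 3 * W ^ 2) := by
  have h1 : (r * δ) ^ 2 = (α * ((h + 3) * e * W)) ^ 2 := by rw [R.rα]
  have h2 : (a * b + 1) * ((2 + 2 * e ^ 2 - 4 * e - 3 * (h * e)) * W)
      = (h * e * W) * ((h + 3) * e * W) ^ 2 := by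
    rw [R.r2, ← R.A2, ← R.D2]
    linarith [h1, mul_pow r δ 2, mul_pow α ((h + 3) * e * W) 2]
  have hW := R.hW
  have h3 : W * ((a * b + 1) * (2 + 2 * e ^ 2 - 4 * e - 3 * (h * e)))
      = W * (h * (h + 3) ^ 2 * (e ^ 3 * W ^ 2)) := by
    linear_combination h2
  exact mul_left_cancel₀ hW.ne' h3

end SZ1

variable {a b c r s t W e h α β γ δ : ℝ}

/-- BLOCK SZ1 : first size estimates. -/
theorem sz1 (R : RD a b c r s t W e h α β γ δ) :
    e ^ 3 * b < a ∧ 3 * a ≤ 8 * (e ^ 3 * b) ∧ W ^ 2 ≤ b * c ∧ b * c ≤ 4 * W ^ 2 ∧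
    h * c ≤ b ∧ 50 ≤ b ∧ W < t ∧ 47 * c ≤ 48 * (c - a) := by
  have ha := R.ha
  have hb := R.hb
  have hc := R.hc
  have cB := R.cB
  have he := R.he
  have he1 := R.he1
  have hh := R.hh
  have hW := R.hW
  have hb12 : 12 < b := by linarith
  have hb0 : 0 < b := by linarith
  have ha0 : 0 < a := by linarith
  have hab : b ≤ a * b := by nlinarith
  have hab2 : 12 * a < a * b := by nlinarith
  have hc0 : 0 < c := by linarith
  have h4b : 4 * b < c := by linarith
  have h48 : 48 * a < c := by linarith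
  have hca : 0 < c - a := by linarith
  have hcb : 0 < c - b := by linarith
  have hW2 : 0 < W ^ 2 := pow_pos hW 2
  have he3 : 0 < e ^ 3 := pow_pos he 3
  have key : e ^ 3 * (2 + e) * (b * (c - a)) = (1 + 2 * e) * (a * (c - b)) := by
    rw [R.bca, R.acb]; ring
  have p1 : e ^ 3 * b < a := by
    by_contra hcon
    push Not at hcon
    have h1 : a * ((2 + e) * (c - a)) ≤ e ^ 3 * b * ((2 + e) * (c - a)) :=
      mul_le_mul_of_nonneg_right hcon (by positivity)
    have h2 : (1 + 2 * e) * (c - b) < (2 + e) * (c - a) := by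
      have h3 : (1 + 2 * e) * (c - b) ≤ (2 + e) * (c - b) :=
        mul_le_mul_of_nonneg_right (by linarith) hcb.le
      have h4 : (2 + e) * (c - b) < (2 + e) * (c - a) :=
        mul_lt_mul_of_pos_left (by linarith) (by linarith)
      linarith
    have h3 : a * ((1 + 2 * e) * (c - b)) < a * ((2 + e) * (c - a)) :=
      mul_lt_mul_of_pos_left h2 ha0
    have h4 : e ^ 3 * b * ((2 + e) * (c - a)) = a * ((1 + 2 * e) * (c - b)) := by
      linear_combination key
    linarith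
  have p2 : 3 * a ≤ 8 * (e ^ 3 * b) := by
    have h1 : (2 + e) * (e ^ 3 * b * (c - a)) ≤ (2 * (1 + 2 * e)) * (e ^ 3 * b * (c - a)) :=
      mul_le_mul_of_nonneg_right (by linarith) (by positivity)
    have h2 : (1 + 2 * e) * (a * (c - b)) ≤ (1 + 2 * e) * (2 * (e ^ 3 * b * (c - a))) := by
      linarith [key, h1]
    have h3 : a * (c - b) ≤ 2 * (e ^ 3 * b * (c - a)) := le_of_mul_le_mul_left h2 (by linarith)
    have h4 : a * (3 * c) ≤ a * (4 * (c - b)) := mul_le_mul_of_nonneg_left (by linarith) ha0.le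
    have h5 : e ^ 3 * b * (c - a) ≤ e ^ 3 * b * c :=
      mul_le_mul_of_nonneg_left (by linarith) (by positivity)
    have h6 : c * (3 * a) ≤ c * (8 * (e ^ 3 * b)) := by linarith
    exact le_of_mul_le_mul_left h6 hc0
  have p8 : 47 * c ≤ 48 * (c - a) := by linarith
  have hWe : 0 < W ^ 2 * e := by positivity
  have p3 : W ^ 2 ≤ b * c := by
    have h1 := R.bca
    nlinarith [mul_pos hb0 ha0]
  have p4 : b * c ≤ 4 * W ^ 2 := by
    have h1 := R.bca
    have h2 : W ^ 2 * e ≤ W ^ 2 := by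
      have : W ^ 2 * e ≤ W ^ 2 * 1 := mul_le_mul_of_nonneg_left he1.le hW2.le
      linarith
    have h3 : b * (47 * c) ≤ b * (48 * (c - a)) := mul_le_mul_of_nonneg_left p8 hb0.le
    linarith
  have p7 : W < t := by
    have h1 := R.bca
    have h2 := R.t2
    have ht := R.ht
    have h3 : W ^ 2 < t ^ 2 := by nlinarith [mul_pos hb0 ha0]
    exact lt_of_pow_lt_pow_left₀ 2 ht.le h3
  have p6 : 50 ≤ b := by
    by_contra hcon
    push Not at hcon
    have h1 : (4 * a * b) ^ 3 ≤ c ^ 3 := pow_le_pow_left₀ (by positivity) hc.le 3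
    have h2 : 6400000 * a * (a ^ 2 * b ^ 3) < b ^ 4 * (a ^ 2 * b ^ 3) := by
      have h3 : 6400000 * a * (a ^ 2 * b ^ 3) = 100000 * (4 * a * b) ^ 3 := by ring
      have h4 : b ^ 4 * (a ^ 2 * b ^ 3) = a ^ 2 * b ^ 7 := by ring
      rw [h3, h4]
      linarith
    have h3 : 6400000 * a < b ^ 4 := lt_of_mul_lt_mul_right h2 (by positivity)
    have h4 : b ^ 4 ≤ 50 ^ 4 := pow_le_pow_left₀ hb0.le hcon.le 4
    norm_num at h4
    linarith
  have p5 : h * c ≤ b := by
    have hq := SZ1.rq R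
    have h1 := R.acb
    have h24 := R.ab24
    have hE : 0 < e ^ 3 * W ^ 2 := by positivity
    -- 9 h E ≤ 2 (ab+1)
    have h2 : h * 9 * (e ^ 3 * W ^ 2) ≤ h * (h + 3) ^ 2 * (e ^ 3 * W ^ 2) := by
      apply mul_le_mul_of_nonneg_right _ hE.le
      apply mul_le_mul_of_nonneg_left _ hh.le
      nlinarith
    have h3 : (a * b + 1) * (2 + 2 * e ^ 2 - 4 * e - 3 * (h * e)) ≤ (a * b + 1) * 2 := by
      apply mul_le_mul_of_nonneg_left _ (by linarith)
      nlinarith [mul_pos hh he]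
    have h4 : 9 * h * (e ^ 3 * W ^ 2) ≤ 2 * (a * b + 1) := by linarith
    have h5 : 9 * h * (a * (c - b)) ≤ 6 * (a * b + 1) := by
      have h6 : a * (c - b) ≤ 3 * (e ^ 3 * W ^ 2) := by
        rw [h1]
        have : e ^ 3 * W ^ 2 * (2 + e) ≤ e ^ 3 * W ^ 2 * 3 :=
          mul_le_mul_of_nonneg_left (by linarith) hE.le
        linarith
      have h7 : 9 * h * (a * (c - b)) ≤ 9 * h * (3 * (e ^ 3 * W ^ 2)) :=
        mul_le_mul_of_nonneg_left h6 (by positivity)
      linarith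
    have h8 : 9 * h * (a * (3 * c)) ≤ 9 * h * (a * (4 * (c - b))) := by
      apply mul_le_mul_of_nonneg_left _ (by positivity)
      exact mul_le_mul_of_nonneg_left (by linarith) ha0.le
    have h9 : a * (27 * (h * c)) ≤ a * (27 * b) := by
      linarith
    have h10 := le_of_mul_le_mul_left h9 ha0
    linarith
  exact ⟨p1, p2, p3, p4, p5, p6, p7, p8⟩

end Pool.Agent.Work.MP_71a505_up
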