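import Mathlib
import Pool.Agent.Work.MP_71a505_up.Defs
import Pool.Agent.Work.MP_71a505_up_helper31.SZ1

namespace Pool.Agent.Work.MP_71a505_up

variable {a b c r s t W e h α β γ δ : ℝ}

/-- BLOCK SZ2 : sharper size estimates for small `e`. -/
theorem sz2 (R : RD a b c r s t W e h α β γ δ) (he : e ≤ 1 / 100) (hcb : 100 * b ≤ c) :
    49 * a ≤ 100 * (e ^ 3 * b) ∧ 100 * (e ^ 3 * b) ≤ 51 * a ∧ 95 * (b * c) ≤ 100 * W ^ 2 ∧
    42 * b ≤ 100 * (h * c) ∧ 100 * (h * c) ≤ 48 * b := by
  obtain ⟨p1, p2, p3, p4, p5, p6, p7, p8⟩ := sz1 R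
  have ha := R.ha
  have hb := R.hb
  have he0 := R.he
  have hh := R.hh
  have hW := R.hW
  have hb0 : 0 < b := by linarith
  have ha0 : 0 < a := by linarith
  have hc0 : 0 < c := by linarith
  have hca : 0 < c - a := by linarith
  have hcb' : 0 < c - b := by linarith
  have hW2 : 0 < W ^ 2 := pow_pos hW 2
  have he3 : 0 < e ^ 3 := pow_pos he0 3
  have key : e ^ 3 * (2 + e) * (b * (c - a)) = (1 + 2 * e) * (a * (c - b)) := by
    rw [R.bca, R.acb]; ring
  have hE : 0 < e ^ 3 * W ^ 2 := by positivity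
  have h1 := R.acb
  have h24 := R.ab24
  have hh1 : h ≤ 1 / 100 := by
    have : h * (100 * b) ≤ h * c := mul_le_mul_of_nonneg_left hcb hh.le
    have h2 : b * (100 * h) ≤ b * 1 := by linarith
    have h3 := le_of_mul_le_mul_left h2 hb0
    linarith
  have q1 : 49 * a ≤ 100 * (e ^ 3 * b) := by
    have h2 : 1 * (a * (c - b)) ≤ (1 + 2 * e) * (a * (c - b)) :=
      mul_le_mul_of_nonneg_right (by linarith) (by positivity)
    have h3 : (2 + e) * (e ^ 3 * b * (c - a)) ≤ (201 / 100) * (e ^ 3 * b * (c - a)) :=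
      mul_le_mul_of_nonneg_right (by linarith) (by positivity)
    have h4 : e ^ 3 * b * (c - a) ≤ e ^ 3 * b * c :=
      mul_le_mul_of_nonneg_left (by linarith) (by positivity)
    have h5 : a * (99 * c) ≤ a * (100 * (c - b)) := mul_le_mul_of_nonneg_left (by linarith) ha0.le
    have h6 : c * (99 * a) ≤ c * (201 * (e ^ 3 * b)) := by linarith
    have h7 := le_of_mul_le_mul_left h6 hc0
    linarith
  have q2 : 100 * (e ^ 3 * b) ≤ 51 * a := by
    have h2 : (1 + 2 * e) * (a * (c - b)) ≤ (102 / 100) * (a * (c - b)) :=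
      mul_le_mul_of_nonneg_right (by linarith) (by positivity)
    have h3 : a * (c - b) ≤ a * (c - a) := mul_le_mul_of_nonneg_left (by linarith) ha0.le
    have h4 : 2 * (e ^ 3 * b * (c - a)) ≤ (2 + e) * (e ^ 3 * b * (c - a)) :=
      mul_le_mul_of_nonneg_right (by linarith) (by positivity)
    have h5 : (c - a) * (2 * (e ^ 3 * b)) ≤ (c - a) * ((102 / 100) * a) := by linarith
    have h6 := le_of_mul_le_mul_left h5 hca
    linarith
  have q3 : 95 * (b * c) ≤ 100 * W ^ 2 := by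
    have h2 := R.bca
    have h3 : W ^ 2 * (1 + 2 * e) ≤ W ^ 2 * (102 / 100) :=
      mul_le_mul_of_nonneg_left (by linarith) hW2.le
    have h4 : b * (1199 * c) ≤ b * (1200 * (c - a)) :=
      mul_le_mul_of_nonneg_left (by linarith) hb0.le
    linarith
  have hq := SZ1.rq R
  have q4 : 42 * b ≤ 100 * (h * c) := by
    have h2 : (a * b + 1) * (195 / 100) ≤ (a * b + 1) * (2 + 2 * e ^ 2 - 4 * e - 3 * (h * e)) := by
      apply mul_le_mul_of_nonneg_left _ (by linarith)
      have : h * e ≤ (1 / 100) * (1 / 100) := mul_le_mul hh1 he he0.le (by norm_num)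
      nlinarith [sq_nonneg e]
    have h3 : h * (h + 3) ^ 2 * (e ^ 3 * W ^ 2) ≤ h * (907 / 100) * (e ^ 3 * W ^ 2) := by
      apply mul_le_mul_of_nonneg_right _ hE.le
      apply mul_le_mul_of_nonneg_left _ hh.le
      nlinarith
    have h4 : 2 * (e ^ 3 * W ^ 2) ≤ a * c := by
      have h5 : a * (c - b) ≤ a * c := mul_le_mul_of_nonneg_left (by linarith) ha0.le
      have h6 : e ^ 3 * W ^ 2 * 2 ≤ e ^ 3 * W ^ 2 * (2 + e) :=
        mul_le_mul_of_nonneg_left (by linarith) hE.le
      linarith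
    have h5 : h * (907 / 200) * (2 * (e ^ 3 * W ^ 2)) ≤ h * (907 / 200) * (a * c) :=
      mul_le_mul_of_nonneg_left h4 (by positivity)
    have h6 : a * (b * (195 / 100)) ≤ a * ((907 / 200) * (h * c)) := by linarith
    have h7 := le_of_mul_le_mul_left h6 ha0
    have h8 : 0 < h * c := by positivity
    linarith
  have q5 : 100 * (h * c) ≤ 48 * b := by
    have h2 : h * 9 * (e ^ 3 * W ^ 2) ≤ h * (h + 3) ^ 2 * (e ^ 3 * W ^ 2) := by
      apply mul_le_mul_of_nonneg_right _ hE.le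
      apply mul_le_mul_of_nonneg_left _ hh.le
      nlinarith
    have h3 : (a * b + 1) * (2 + 2 * e ^ 2 - 4 * e - 3 * (h * e)) ≤ (a * b + 1) * 2 := by
      apply mul_le_mul_of_nonneg_left _ (by linarith)
      nlinarith [mul_pos hh he0]
    have h6 : a * (c - b) ≤ (201 / 100) * (e ^ 3 * W ^ 2) := by
      have : e ^ 3 * W ^ 2 * (2 + e) ≤ e ^ 3 * W ^ 2 * (201 / 100) :=
        mul_le_mul_of_nonneg_left (by linarith) hE.le
      linarith
    have h7 : 9 * h * (a * (c - b)) ≤ 9 * h * ((201 / 100) * (e ^ 3 * W ^ 2)) :=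
      mul_le_mul_of_nonneg_left h6 (by positivity)
    have h8 : 9 * h * (a * (99 * c)) ≤ 9 * h * (a * (100 * (c - b))) := by
      apply mul_le_mul_of_nonneg_left _ (by positivity)
      exact mul_le_mul_of_nonneg_left (by linarith) ha0.le
    have h9 : a * (891 * (h * c)) ≤ a * (419 * b) := by linarith
    have h10 := le_of_mul_le_mul_left h9 ha0
    linarith
  exact ⟨q1, q2, q3, q4, q5⟩

end Pool.Agent.Work.MP_71a505_up
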